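import Pool.Agent.X98.Winfree.Main

/-!
MP_3a3e96_an, question Q1, answered affirmatively: partial oscillator death and partial locking
coexist in the Winfree model, with `ρ₁ + ρ₂ < 1`, so that the oscillators outside of the two groups
(a positive fraction of all) may have arbitrary natural frequencies.
-/

open Set Filter Topology

namespace Pool.Agent.Results.MP_3a3e96_an.Coexistence

open Pool.Agent.X98.Winfree

/-- `B`-partial oscillator death: the phases in `B` are bounded. -/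
def PartialDeath {N : ℕ} (B : Finset (Fin N)) (θ : ℝ → Fin N → ℝ) : Prop :=
  ∀ i ∈ B, ∃ M : ℝ, ∀ t : ℝ, 0 ≤ t → |θ t i| ≤ M

/-- `C`-partial oscillator locking: the phase differences in `C` are bounded, and `θ_i(t) / t` does
not tend to `0` for `i ∈ C`. -/
def PartialLocking {N : ℕ} (C : Finset (Fin N)) (θ : ℝ → Fin N → ℝ) : Prop :=
  (∀ i ∈ C, ∀ j ∈ C, ∃ M : ℝ, ∀ t : ℝ, 0 ≤ t → |θ t i - θ t j| ≤ M) ∧
    ∀ i ∈ C, ¬ Tendsto (fun t => θ t i / t) atTop (𝓝 0)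

theorem result : ∃ ρ₁ ρ₂ γ κ : ℝ, 0 < ρ₁ ∧ 0 < ρ₂ ∧ ρ₁ + ρ₂ < 1 ∧ 0 < γ ∧ γ ≤ 1 ∧ 0 < κ ∧
    ∀ (N : ℕ), 1 ≤ N → ∀ (ω : Fin N → ℝ) (B C : Finset (Fin N)), Disjoint B C →
      ρ₁ * N ≤ B.card → ρ₂ * N ≤ C.card →
      (∀ i ∈ B, ω i ∈ Icc (-γ) γ) → (∀ i ∈ C, ω i ∈ Icc (1 - γ) (1 + γ)) →
      ∃ Θ₀ : Fin N → ℝ, (∃ θ, IsSolution ω κ θ ∧ θ 0 = Θ₀) ∧
        ∀ θ, IsSolution ω κ θ → θ 0 = Θ₀ → PartialDeath B θ ∧ PartialLocking C θ := by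
  refine ⟨9 / 20, 9 / 20, 1 / 10 ^ 7, 1 / 100, by norm_num, by norm_num, by norm_num, by norm_num,
    by norm_num, by norm_num, ?_⟩
  intro N hN ω B C hBC hB hC hωB hωC
  have hωB' : ∀ i ∈ B, |ω i| ≤ 1 / 10 ^ 7 := fun i hi => abs_le.mpr (hωB i hi)
  have hωC' : ∀ i ∈ C, |ω i - 1| ≤ 1 / 10 ^ 7 := fun i hi => by
    obtain ⟨h1, h2⟩ := hωC i hi
    rw [abs_le]; constructor <;> linarith
  refine ⟨0, exists_solution hN ω _ 0, fun θ hθ h0 => ?_⟩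
  have hc := confined hN hθ h0 hBC hB hC hωB' hωC'
  exact ⟨fun i hi => ⟨1 / 10, fun t ht => ((hc t ht).1 i hi).le⟩,
    fun i hi j hj => ⟨1 / 100, fun t ht => ((hc t ht).2 i hi j hj).le⟩,
    fun i hi => not_slow hN hθ h0 (hωC' i hi)⟩

end Pool.Agent.Results.MP_3a3e96_an.Coexistence
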